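import Pool.Agent.U436.CH.Main

/-!
# The powers of the cyclic coverings `w ^ n = ∏ (x - p j) ^ b j * (x - q j) ^ (n - b j)` of the line as coverings
of a fixed variety which contains linear subspaces
-/

set_option autoImplicit false

namespace Pool.Agent.U436.WC

open Polynomial Finset
open Pool.Agent.U436.HP (wt wt_ne_zero exists_poly_iff poly_eq_zero)
open Pool.Agent.U436.CH (cyc Same mulMap)

variable {k : Type*} [Field k] {e n : ℕ}

/-- The `2 e + 2` branch points. -/
def br (p q : Fin (e + 1) → k) : Fin ((e + 1) + (e + 1)) → k := Fin.append p q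

/-- The exponents `b j` at `p j` and `n - b j` at `q j`. -/
def ex (n : ℕ) (b : Fin (e + 1) → ℕ) : Fin ((e + 1) + (e + 1)) → ℕ := Fin.append b fun j => n - b j

/-- The factor `1 / ∏ (p j - r)`, `r` the other branch points. -/
noncomputable def wp (p q : Fin (e + 1) → k) (j : Fin (e + 1)) : k := wt (br p q) (Fin.castAdd (e + 1) j)

/-- The factor `1 / ∏ (q j - r)`, `r` the other branch points. -/
noncomputable def wq (p q : Fin (e + 1) → k) (j : Fin (e + 1)) : k := wt (br p q) (Fin.natAdd (e + 1) j)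

/-- The points of the covering: the pairs of a nonzero linear polynomial (binary form) `L` and of `w` with
`w ^ n = ∏ j, L (p j) ^ b j * L (q j) ^ (n - b j)`. -/
def curve (n : ℕ) (p q : Fin (e + 1) → k) (b : Fin (e + 1) → ℕ) : Set (k[X] × k) :=
  {z | z.1 ≠ 0 ∧ z.1.natDegree ≤ 1 ∧
    z.2 ^ n = ∏ j, z.1.eval (p j) ^ b j * z.1.eval (q j) ^ (n - b j)}

/-- The fixed variety: `∑ (u j + v j) = 0`, `w ^ n = ∏ u j ^ b j * v j ^ (n - b j)`. -/
def target (n : ℕ) (b : Fin (e + 1) → ℕ) : Set ((Fin (e + 1) → k) × (Fin (e + 1) → k) × k) :=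
  {z | ¬ (z.1 = 0 ∧ z.2.1 = 0) ∧ ∑ j, (z.1 j + z.2.1 j) = 0 ∧
    z.2.2 ^ n = ∏ j, z.1 j ^ b j * z.2.1 j ^ (n - b j)}

/-- The map from the `2 e`-th power of the curve. -/
noncomputable def toTarget (p q : Fin (e + 1) → k) (c : k) (x : Fin (2 * e) → k[X] × k) :
    (Fin (e + 1) → k) × (Fin (e + 1) → k) × k :=
  (fun j => wp p q j * ∏ l, (x l).1.eval (p j), fun j => wq p q j * ∏ l, (x l).1.eval (q j),
    c * ∏ l, (x l).2)

/-- The same point for the weights `1` and `e + 1`. -/
def SamePoint (z z' : (Fin (e + 1) → k) × (Fin (e + 1) → k) × k) : Prop :=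
  ∃ t : k, t ≠ 0 ∧ (∀ j, z'.1 j = t * z.1 j) ∧ (∀ j, z'.2.1 j = t * z.2.1 j) ∧ z'.2.2 = t ^ (e + 1) * z.2.2

variable {p q : Fin (e + 1) → k} {b : Fin (e + 1) → ℕ}

omit [Field k] in
lemma br_p (j : Fin (e + 1)) : br p q (Fin.castAdd (e + 1) j) = p j := Fin.append_left _ _ _
omit [Field k] in
lemma br_q (j : Fin (e + 1)) : br p q (Fin.natAdd (e + 1) j) = q j := Fin.append_right _ _ _

lemma wp_ne_zero (h : Function.Injective (br p q)) (j : Fin (e + 1)) : wp p q j ≠ 0 := wt_ne_zero h _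
lemma wq_ne_zero (h : Function.Injective (br p q)) (j : Fin (e + 1)) : wq p q j ≠ 0 := wt_ne_zero h _

lemma sum_ex (hb : ∀ j, b j ≤ n) : ∑ i, ex n b i = n * (e + 1) := by
  unfold ex
  rw [Fin.sum_univ_add]
  simp only [Fin.append_left, Fin.append_right]
  rw [← Finset.sum_add_distrib, Finset.sum_congr rfl fun j _ => Nat.add_sub_cancel' (hb j)]
  simp [mul_comm]

lemma prod_ex (b : Fin (e + 1) → ℕ) (f : Fin ((e + 1) + (e + 1)) → k) :
    ∏ i, f i ^ ex n b i =
      ∏ j, f (Fin.castAdd (e + 1) j) ^ b j * f (Fin.natAdd (e + 1) j) ^ (n - b j) := by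
  unfold ex
  rw [Fin.prod_univ_add]
  simp only [Fin.append_left, Fin.append_right]
  rw [Finset.prod_mul_distrib]

lemma curve_eq (n : ℕ) (p q : Fin (e + 1) → k) (b : Fin (e + 1) → ℕ) :
    curve n p q b = cyc 1 n (br p q) (ex n b) := by
  unfold curve cyc
  ext z
  rw [Set.mem_ofPred_eq, Set.mem_ofPred_eq, prod_ex b (fun i => z.1.eval (br p q i))]
  simp only [br_p, br_q]

/-- The points of the target in terms of polynomials of degree at most `2 e`. -/
lemma mem_target_iff (h : Function.Injective (br p q)) {c : k}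
    (hc : c ^ n = ∏ j, wp p q j ^ b j * wq p q j ^ (n - b j)) (hc0 : c ≠ 0)
    (z : (Fin (e + 1) → k) × (Fin (e + 1) → k) × k) :
    z ∈ target n b ↔ ∃ y ∈ cyc (2 * e) n (br p q) (ex n b),
      z = (fun j => wp p q j * y.1.eval (p j), fun j => wq p q j * y.1.eval (q j), c * y.2) := by
  have hN : 1 + 2 * e + 1 = (e + 1) + (e + 1) := by ring
  have key : ∀ (P : k[X]) (w : k), w ^ n = ∏ i, P.eval (br p q i) ^ ex n b i ↔
      (c * w) ^ n = ∏ j, (wp p q j * P.eval (p j)) ^ b j * (wq p q j * P.eval (q j)) ^ (n - b j) := by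
    intro P w
    rw [prod_ex b (fun i => P.eval (br p q i))]
    simp only [br_p, br_q, mul_pow]
    have e1 : ∏ j, (wp p q j ^ b j * P.eval (p j) ^ b j * (wq p q j ^ (n - b j) * P.eval (q j) ^ (n - b j))) =
        c ^ n * ∏ j, P.eval (p j) ^ b j * P.eval (q j) ^ (n - b j) := by
      rw [hc, ← Finset.prod_mul_distrib]
      exact Finset.prod_congr rfl fun j _ => by ring
    rw [e1]
    exact (mul_right_inj' (pow_ne_zero n hc0)).symm
  obtain ⟨u, v, w⟩ := z
  constructor
  · rintro ⟨h0, h1, h2⟩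
    simp only at h0 h1 h2
    obtain ⟨P, hPd, hP⟩ := (exists_poly_iff h hN
      (Fin.append (fun j => u j / wp p q j) fun j => v j / wq p q j)).mp (by
        intro j hj
        have hj0 : j = 0 := by omega
        subst hj0
        simp only [pow_zero, mul_one]
        rw [Fin.sum_univ_add]
        simp only [Fin.append_left, Fin.append_right]
        rw [← h1, Finset.sum_add_distrib]
        congr 1
        · exact Finset.sum_congr rfl fun j _ => mul_div_cancel₀ _ (wp_ne_zero h j)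
        · exact Finset.sum_congr rfl fun j _ => mul_div_cancel₀ _ (wq_ne_zero h j))
    have hu : ∀ j, wp p q j * P.eval (p j) = u j := by
      intro j
      have := hP (Fin.castAdd (e + 1) j)
      rw [br_p, Fin.append_left] at this
      rw [this, mul_div_cancel₀ _ (wp_ne_zero h j)]
    have hv : ∀ j, wq p q j * P.eval (q j) = v j := by
      intro j
      have := hP (Fin.natAdd (e + 1) j)
      rw [br_q, Fin.append_right] at this
      rw [this, mul_div_cancel₀ _ (wq_ne_zero h j)]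
    refine ⟨(P, w / c), ⟨?_, hPd, ?_⟩, ?_⟩
    · rintro rfl
      apply h0
      refine ⟨funext fun j => ?_, funext fun j => ?_⟩
      · rw [← hu j]; simp
      · rw [← hv j]; simp
    · rw [key P (w / c), mul_div_cancel₀ _ hc0]
      simp only [hu, hv]
      exact h2
    · refine Prod.ext (funext fun j => (hu j).symm) (Prod.ext (funext fun j => (hv j).symm) ?_)
      exact (mul_div_cancel₀ _ hc0).symm
  · rintro ⟨⟨P, w'⟩, ⟨hP0, hPd, hw⟩, hz⟩
    simp only at hP0 hPd hw hz
    have hu : u = fun j => wp p q j * P.eval (p j) := congrArg Prod.fst hz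
    have hv : v = fun j => wq p q j * P.eval (q j) := congrArg (fun z => z.2.1) hz
    have hw' : w = c * w' := congrArg (fun z => z.2.2) hz
    subst hu hv hw'
    refine ⟨?_, ?_, (key P w').mp hw⟩
    · rintro ⟨h1, h2⟩
      refine hP0 (poly_eq_zero h (by omega) fun i => ?_)
      refine Fin.addCases (fun j => ?_) (fun j => ?_) i
      · rw [br_p]
        exact (mul_eq_zero.mp (congrFun h1 j)).resolve_left (wp_ne_zero h j)
      · rw [br_q]
        exact (mul_eq_zero.mp (congrFun h2 j)).resolve_left (wq_ne_zero h j)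
    · have h1 := (exists_poly_iff h hN (fun i => P.eval (br p q i))).mpr ⟨P, hPd, fun i => rfl⟩ 0 (by omega)
      simp only [pow_zero, mul_one] at h1
      rw [Fin.sum_univ_add, ← Finset.sum_add_distrib] at h1
      simp only [br_p, br_q] at h1
      exact h1

lemma toTarget_eq (p q : Fin (e + 1) → k) (c : k) (x : Fin (2 * e) → k[X] × k) :
    toTarget p q c x = (fun j => wp p q j * (mulMap x).1.eval (p j),
      fun j => wq p q j * (mulMap x).1.eval (q j), c * (mulMap x).2) := by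
  unfold toTarget mulMap
  simp only [eval_prod]

theorem toTarget_mem (h : Function.Injective (br p q)) {c : k}
    (hc : c ^ n = ∏ j, wp p q j ^ b j * wq p q j ^ (n - b j)) (hc0 : c ≠ 0)
    {x : Fin (2 * e) → k[X] × k} (hx : ∀ l, x l ∈ curve n p q b) : toTarget p q c x ∈ target n b := by
  rw [mem_target_iff h hc hc0]
  refine ⟨mulMap x, CH.mulMap_mem fun l => ?_, toTarget_eq p q c x⟩
  rw [← curve_eq]; exact hx l

theorem toTarget_surj [IsAlgClosed k] (hn : n ≠ 0) (he : 1 ≤ e) (h : Function.Injective (br p q)) {c : k}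
    (hc : c ^ n = ∏ j, wp p q j ^ b j * wq p q j ^ (n - b j)) (hc0 : c ≠ 0)
    {z : (Fin (e + 1) → k) × (Fin (e + 1) → k) × k} (hz : z ∈ target n b) :
    ∃ x : Fin (2 * e) → k[X] × k, (∀ l, x l ∈ curve n p q b) ∧ toTarget p q c x = z := by
  obtain ⟨y, hy, hzy⟩ := (mem_target_iff h hc hc0 z).mp hz
  obtain ⟨x, hx, hxy⟩ := CH.mulMap_surj (by omega) hn hy
  refine ⟨x, fun l => by rw [curve_eq]; exact hx l, ?_⟩
  rw [toTarget_eq, hxy, hzy]

theorem toTarget_same_iff [IsAlgClosed k] (hn : n ≠ 0) (hb : ∀ j, b j ≤ n) (h : Function.Injective (br p q))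
    {c : k} (hc0 : c ≠ 0) {x x' : Fin (2 * e) → k[X] × k} (hx : ∀ l, x l ∈ curve n p q b)
    (hx' : ∀ l, x' l ∈ curve n p q b) :
    SamePoint (toTarget p q c x) (toTarget p q c x') ↔
      ∃ (σ : Equiv.Perm (Fin (2 * e))) (ζ : Fin (2 * e) → k), (∀ l, ζ l ^ n = 1) ∧ ∏ l, ζ l = 1 ∧
        ∀ l, ∃ t : k, t ≠ 0 ∧ (x' l).1 = C t * (x (σ l)).1 ∧ (x' l).2 = t ^ (e + 1) * (ζ l * (x (σ l)).2) := by
  have hx1 : ∀ l, x l ∈ cyc 1 n (br p q) (ex n b) := fun l => by rw [← curve_eq]; exact hx l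
  have hx1' : ∀ l, x' l ∈ cyc 1 n (br p q) (ex n b) := fun l => by rw [← curve_eq]; exact hx' l
  refine Iff.trans ?_ (CH.mulMap_same_iff hn (sum_ex hb) hx1 hx1')
  rw [toTarget_eq, toTarget_eq]
  unfold SamePoint Same
  refine exists_congr fun t => and_congr_right fun ht => ?_
  simp only
  constructor
  · rintro ⟨h1, h2, h3⟩
    refine ⟨?_, ?_⟩
    · rw [← sub_eq_zero]
      refine poly_eq_zero h ?_ fun i => ?_
      · refine lt_of_le_of_lt (natDegree_sub_le _ _) (max_lt ?_ ?_)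
        · have := (CH.mulMap_mem hx1').2.1; omega
        · rw [natDegree_C_mul ht]
          have := (CH.mulMap_mem hx1).2.1; omega
      · rw [eval_sub, eval_mul, eval_C, sub_eq_zero]
        refine Fin.addCases (fun j => ?_) (fun j => ?_) i
        · rw [br_p]
          refine mul_left_cancel₀ (wp_ne_zero h j) ?_
          rw [h1 j]; ring
        · rw [br_q]
          refine mul_left_cancel₀ (wq_ne_zero h j) ?_
          rw [h2 j]; ring
    · refine mul_left_cancel₀ hc0 ?_
      rw [h3]; ring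
  · rintro ⟨h1, h2⟩
    refine ⟨fun j => ?_, fun j => ?_, ?_⟩
    · rw [h1, eval_mul, eval_C]; ring
    · rw [h1, eval_mul, eval_C]; ring
    · rw [h2]; ring

/-- The points of the target with `u = - v` form the linear subspaces `(-v, v, ξ ∏ v j)`. -/
theorem linear_iff [IsAlgClosed k] (hn : n ≠ 0) (hb : ∀ j, b j ≤ n) (v : Fin (e + 1) → k) (hv : v ≠ 0) (w : k) :
    ((fun j => -v j, v, w) : (Fin (e + 1) → k) × (Fin (e + 1) → k) × k) ∈ target n b ↔
      ∃ ξ : k, ξ ^ n = (-1) ^ (∑ j, b j) ∧ w = ξ * ∏ j, v j := by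
  have key : ∏ j, (-v j) ^ b j * v j ^ (n - b j) = (-1) ^ (∑ j, b j) * (∏ j, v j) ^ n := by
    rw [← Finset.prod_pow_eq_pow_sum, ← Finset.prod_pow, ← Finset.prod_mul_distrib]
    refine Finset.prod_congr rfl fun j _ => ?_
    rw [neg_pow (v j), mul_assoc, ← pow_add, Nat.add_sub_cancel' (hb j)]
  have h1 : ((fun j => -v j, v, w) : (Fin (e + 1) → k) × (Fin (e + 1) → k) × k) ∈ target n b ↔
      w ^ n = (-1) ^ (∑ j, b j) * (∏ j, v j) ^ n := by
    unfold target
    rw [Set.mem_ofPred_eq]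
    simp only
    rw [key]
    exact ⟨fun h => h.2.2, fun h => ⟨fun h0 => hv h0.2, by simp, h⟩⟩
  rw [h1]
  constructor
  · intro h
    obtain ⟨ξ0, hξ0⟩ := IsAlgClosed.exists_pow_nat_eq (((-1) ^ (∑ j, b j) : k)) (Nat.pos_of_ne_zero hn)
    by_cases h0 : ∏ j, v j = 0
    · refine ⟨ξ0, hξ0, ?_⟩
      rw [h0, zero_pow hn, mul_zero] at h
      rw [(pow_eq_zero_iff hn).mp h, h0, mul_zero]
    · refine ⟨w / ∏ j, v j, ?_, (div_mul_cancel₀ _ h0).symm⟩
      rw [div_pow, h, mul_div_cancel_right₀ _ (pow_ne_zero _ h0)]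
  · rintro ⟨ξ, hξ, rfl⟩
    rw [mul_pow, hξ]

end Pool.Agent.U436.WC
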